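import Pool.Agent.Lib.MP_cb27ba_nt.Form

/-!
# MP_cb27ba_nt: the classical bound `|S_χ(A)| ≤ √p |A|`
-/

namespace Pool.Agent.Lib.MPcb27ba

open Finset

variable {p : ℕ} [Fact p.Prime] (χ : DirichletCharacter ℂ p)

theorem sum_char_mul_conj_self (b : ZMod p) :
    ∑ x, χ (x - b) * (starRingEnd ℂ) (χ (x - b)) = (p : ℂ) - 1 := by
  have h1 : ∑ x, χ (x - b) * (starRingEnd ℂ) (χ (x - b)) =
      ∑ x : ZMod p, χ x * (starRingEnd ℂ) (χ x) :=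
    Fintype.sum_equiv (Equiv.subRight b) _ _ (fun y => rfl)
  rw [h1, ← Finset.add_sum_erase _ _ (Finset.mem_univ (0 : ZMod p))]
  rw [MulChar.map_zero, zero_mul, zero_add]
  have h2 : ∀ x ∈ (Finset.univ : Finset (ZMod p)).erase 0, χ x * (starRingEnd ℂ) (χ x) = 1 := by
    intro x hx
    have hx' : x ≠ 0 := (Finset.mem_erase.1 hx).1
    obtain ⟨u, hu⟩ := hx'.isUnit
    rw [Complex.mul_conj, Complex.normSq_eq_norm_sq, ← hu, DirichletCharacter.unit_norm_eq_one]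
    norm_num
  rw [Finset.sum_congr rfl h2, Finset.sum_const, Finset.card_erase_of_mem (Finset.mem_univ _),
    Finset.card_univ, ZMod.card, nsmul_eq_mul, mul_one, Nat.cast_sub (Fact.out : p.Prime).one_le,
    Nat.cast_one]

theorem sum_norm_sq (hχ : χ ≠ 1) (A : Finset (ZMod p)) :
    ∑ x, ‖∑ b ∈ A, χ (x - b)‖ ^ 2 = (A.card : ℝ) * (p - A.card) := by
  have h : ((∑ x, ‖∑ b ∈ A, χ (x - b)‖ ^ 2 : ℝ) : ℂ) = (A.card : ℂ) * (p - A.card) := by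
    push_cast
    have h1 : ∀ x : ZMod p, ((‖∑ b ∈ A, χ (x - b)‖ : ℝ) : ℂ) ^ 2 =
        ∑ b ∈ A, ∑ b' ∈ A, χ (x - b) * (starRingEnd ℂ) (χ (x - b')) := by
      intro x
      rw [← Complex.mul_conj', map_sum, Finset.sum_mul_sum]
    simp only [h1]
    rw [Finset.sum_comm]
    have h2 : ∀ b ∈ A, ∑ x, ∑ b' ∈ A, χ (x - b) * (starRingEnd ℂ) (χ (x - b')) =
        (p : ℂ) - A.card := by
      intro b hb
      rw [Finset.sum_comm, ← Finset.add_sum_erase _ _ hb, sum_char_mul_conj_self]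
      have h3 : ∀ b' ∈ A.erase b, ∑ x, χ (x - b) * (starRingEnd ℂ) (χ (x - b')) = -1 := by
        intro b' hb'
        exact sum_char_mul_conj χ (Finset.mem_erase.1 hb').1.symm hχ
      rw [Finset.sum_congr rfl h3, Finset.sum_const, Finset.card_erase_of_mem hb, nsmul_eq_mul,
        Nat.cast_sub (Finset.card_pos.2 ⟨b, hb⟩), Nat.cast_one]
      ring
    rw [Finset.sum_congr rfl h2, Finset.sum_const, nsmul_eq_mul]
  exact_mod_cast h

/-- The classical bound. -/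
theorem norm_charSum_le (hχ : χ ≠ 1) (A : Finset (ZMod p)) :
    ‖charSum χ A‖ ≤ Real.sqrt p * A.card := by
  have h1 : ‖charSum χ A‖ ≤ ∑ a ∈ A, ‖∑ b ∈ A, χ (a - b)‖ := norm_sum_le _ _
  have h2 : (∑ a ∈ A, ‖∑ b ∈ A, χ (a - b)‖) ^ 2 ≤
      (A.card : ℝ) * ∑ a ∈ A, ‖∑ b ∈ A, χ (a - b)‖ ^ 2 := sq_sum_le_card_mul_sum_sq
  have h3 : ∑ a ∈ A, ‖∑ b ∈ A, χ (a - b)‖ ^ 2 ≤ ∑ x, ‖∑ b ∈ A, χ (x - b)‖ ^ 2 :=
    Finset.sum_le_sum_of_subset_of_nonneg (Finset.subset_univ _) (fun x _ _ => by positivity)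
  rw [sum_norm_sq χ hχ A] at h3
  have hA : (0 : ℝ) ≤ A.card := Nat.cast_nonneg _
  have h4 : (∑ a ∈ A, ‖∑ b ∈ A, χ (a - b)‖) ^ 2 ≤ (Real.sqrt p * A.card) ^ 2 := by
    rw [mul_pow, Real.sq_sqrt (Nat.cast_nonneg p)]
    nlinarith [mul_le_mul_of_nonneg_left h3 hA, mul_nonneg hA (mul_nonneg hA hA)]
  have h5 : 0 ≤ Real.sqrt p * A.card := by positivity
  exact h1.trans (abs_le_of_sq_le_sq' h4 h5).2

theorem norm_charSum_le_sq (A : Finset (ZMod p)) : ‖charSum χ A‖ ≤ (A.card : ℝ) ^ 2 := by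
  refine (norm_sum_le _ _).trans ?_
  have h : ∀ a ∈ A, ‖∑ b ∈ A, χ (a - b)‖ ≤ (A.card : ℝ) := by
    intro a _
    refine (norm_sum_le _ _).trans ?_
    have : ∑ b ∈ A, ‖χ (a - b)‖ ≤ ∑ _b ∈ A, (1 : ℝ) :=
      Finset.sum_le_sum fun b _ => DirichletCharacter.norm_le_one _ _
    simpa using this
  refine (Finset.sum_le_sum h).trans (le_of_eq ?_)
  rw [Finset.sum_const, nsmul_eq_mul, pow_two]

end Pool.Agent.Lib.MPcb27ba
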