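import Mathlib

/-!
# MP_cb27ba_nt: the bilinear form attached to a multiplicative character

`B χ f g = ∑ x, ∑ y, f x * g y * χ (x - y)`.
-/

namespace Pool.Agent.Lib.MPcb27ba

open Finset

variable {p : ℕ}

/-- The sum `S_χ(A)`. -/
noncomputable def charSum (χ : DirichletCharacter ℂ p) (A : Finset (ZMod p)) : ℂ :=
  ∑ a ∈ A, ∑ b ∈ A, χ (a - b)

variable [Fact p.Prime] (χ : DirichletCharacter ℂ p)

/-- The bilinear form. -/
noncomputable def B (f g : ZMod p → ℂ) : ℂ := ∑ x, ∑ y, f x * g y * χ (x - y)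

/-- Indicator function. -/
noncomputable def ind (A : Finset (ZMod p)) (x : ZMod p) : ℂ := if x ∈ A then 1 else 0

theorem charSum_eq_B (A : Finset (ZMod p)) : charSum χ A = B χ (ind A) (ind A) := by
  unfold charSum B ind
  rw [← Finset.sum_filter_add_sum_filter_not Finset.univ (fun x => x ∈ A)]
  simp only [Finset.filter_mem_eq_inter, Finset.univ_inter]
  have h2 : ∑ x ∈ Finset.univ.filter (fun x => ¬ x ∈ A), ∑ y,
      (if x ∈ A then (1 : ℂ) else 0) * (if y ∈ A then 1 else 0) * χ (x - y) = 0 := by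
    refine Finset.sum_eq_zero fun x hx => ?_
    rw [Finset.mem_filter] at hx
    simp [hx.2]
  rw [h2, add_zero]
  refine Finset.sum_congr rfl fun x hx => ?_
  simp only [hx, if_true, one_mul, ite_mul, zero_mul]
  rw [← Finset.sum_filter]
  simp

theorem sum_ind (A : Finset (ZMod p)) : ∑ x, ind A x = (A.card : ℂ) := by
  unfold ind
  simp [Finset.sum_ite_mem]

theorem B_add_left (f₁ f₂ g : ZMod p → ℂ) : B χ (f₁ + f₂) g = B χ f₁ g + B χ f₂ g := by
  unfold B
  simp only [Pi.add_apply, add_mul, Finset.sum_add_distrib]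

theorem B_sub_left (f₁ f₂ g : ZMod p → ℂ) : B χ (f₁ - f₂) g = B χ f₁ g - B χ f₂ g := by
  unfold B
  simp only [Pi.sub_apply, sub_mul, Finset.sum_sub_distrib]

theorem B_add_right (f g₁ g₂ : ZMod p → ℂ) : B χ f (g₁ + g₂) = B χ f g₁ + B χ f g₂ := by
  unfold B
  simp only [Pi.add_apply, mul_add, add_mul, Finset.sum_add_distrib]

theorem B_sub_right (f g₁ g₂ : ZMod p → ℂ) : B χ f (g₁ - g₂) = B χ f g₁ - B χ f g₂ := by
  unfold B
  simp only [Pi.sub_apply, mul_sub, sub_mul, Finset.sum_sub_distrib]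

theorem sum_char_sub (hχ : χ ≠ 1) (x : ZMod p) : ∑ y, χ (x - y) = 0 := by
  rw [← MulChar.sum_eq_zero_of_ne_one hχ]
  exact Fintype.sum_equiv (Equiv.subLeft x) _ _ (fun y => rfl)

theorem sum_char_sub' (hχ : χ ≠ 1) (y : ZMod p) : ∑ x, χ (x - y) = 0 := by
  rw [← MulChar.sum_eq_zero_of_ne_one hχ]
  exact Fintype.sum_equiv (Equiv.subRight y) _ _ (fun y => rfl)

/-- `∑_x χ(x - b) conj χ(x - b') = -1` for `b ≠ b'`. -/
theorem sum_char_mul_conj {b b' : ZMod p} (hb : b ≠ b') (hχ : χ ≠ 1) :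
    ∑ x, χ (x - b) * (starRingEnd ℂ) (χ (x - b')) = -1 := by
  -- split off `x = b'`
  have h0 : χ (b' - b) * (starRingEnd ℂ) (χ (b' - b')) = 0 := by
    rw [sub_self, MulChar.map_zero, map_zero, mul_zero]
  rw [← Finset.add_sum_erase _ _ (Finset.mem_univ b'), h0, zero_add]
  have hval : ∀ x ∈ (Finset.univ : Finset (ZMod p)).erase b',
      χ (x - b) * (starRingEnd ℂ) (χ (x - b')) = χ (1 + (b' - b) * (x - b')⁻¹) := by
    intro x hx
    have hx' : x - b' ≠ 0 := sub_ne_zero.2 (Finset.mem_erase.1 hx).1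
    have hu : IsUnit (x - b') := hx'.isUnit
    have h1 : (starRingEnd ℂ) (χ (x - b')) = χ ((x - b')⁻¹) := by
      have hnorm : χ (x - b') * (starRingEnd ℂ) (χ (x - b')) = 1 := by
        rw [Complex.mul_conj, Complex.normSq_eq_norm_sq]
        obtain ⟨u, hu'⟩ := hu
        rw [← hu', DirichletCharacter.unit_norm_eq_one]
        norm_num
      have hinv : χ (x - b') * χ ((x - b')⁻¹) = 1 := by
        rw [← map_mul, mul_inv_cancel₀ hx', map_one]
      have hne : χ (x - b') ≠ 0 := by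
        intro h
        rw [h, zero_mul] at hinv
        exact zero_ne_one hinv
      exact mul_left_cancel₀ hne (hnorm.trans hinv.symm)
    rw [h1, ← map_mul]
    congr 1
    field_simp
    ring
  rw [Finset.sum_congr rfl hval]
  -- reindex: `x ↦ 1 + (b' - b) (x - b')⁻¹` is a bijection onto `{u ≠ 1}`
  have hbij : ∑ x ∈ (Finset.univ : Finset (ZMod p)).erase b', χ (1 + (b' - b) * (x - b')⁻¹) =
      ∑ u ∈ (Finset.univ : Finset (ZMod p)).erase 1, χ u := by
    have hbb : b' - b ≠ 0 := sub_ne_zero.2 hb.symm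
    refine Finset.sum_bij' (fun x _ => 1 + (b' - b) * (x - b')⁻¹)
      (fun u _ => b' + (b' - b) * (u - 1)⁻¹) ?_ ?_ ?_ ?_ ?_
    · intro x hx
      have hx' : x - b' ≠ 0 := sub_ne_zero.2 (Finset.mem_erase.1 hx).1
      refine Finset.mem_erase.2 ⟨?_, Finset.mem_univ _⟩
      intro h
      have : (b' - b) * (x - b')⁻¹ = 0 := by linear_combination h
      exact (mul_ne_zero hbb (inv_ne_zero hx')) this
    · intro u hu
      have hu' : u - 1 ≠ 0 := sub_ne_zero.2 (Finset.mem_erase.1 hu).1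
      refine Finset.mem_erase.2 ⟨?_, Finset.mem_univ _⟩
      intro h
      have : (b' - b) * (u - 1)⁻¹ = 0 := by linear_combination h
      exact (mul_ne_zero hbb (inv_ne_zero hu')) this
    · intro x hx
      have hx' : x - b' ≠ 0 := sub_ne_zero.2 (Finset.mem_erase.1 hx).1
      have : 1 + (b' - b) * (x - b')⁻¹ - 1 = (b' - b) * (x - b')⁻¹ := by ring
      simp only [this]
      field_simp
      ring
    · intro u hu
      have hu' : u - 1 ≠ 0 := sub_ne_zero.2 (Finset.mem_erase.1 hu).1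
      have : b' + (b' - b) * (u - 1)⁻¹ - b' = (b' - b) * (u - 1)⁻¹ := by ring
      simp only [this]
      field_simp
      ring
    · intro x hx
      rfl
  rw [hbij]
  have h := MulChar.sum_eq_zero_of_ne_one hχ
  rw [← Finset.add_sum_erase _ _ (Finset.mem_univ (1 : ZMod p)), map_one] at h
  linear_combination h

end Pool.Agent.Lib.MPcb27ba
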